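import Pool.Agent.X14.QLiu

/-!
# A q-analogue of Liu's supercongruence for `n ≡ 1 (mod 4)`
-/

set_option autoImplicit false

namespace Pool.Agent.Results.MP_c9c571_nt.AllOneModFour

open Finset Polynomial

noncomputable section

/-- The indeterminate `q`, as an element of `ℚ(q)`. -/
def q : RatFunc ℚ := RatFunc.X

/-- The q-shifted factorial `(a; x)_k = (1 - a)(1 - a x) ⋯ (1 - a x^{k-1})`. -/
def qp (a x : RatFunc ℚ) (k : ℕ) : RatFunc ℚ := ∏ j ∈ range k, (1 - a * x ^ j)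

/-- The terms `a_k(q)`. -/
def a (k : ℕ) : RatFunc ℚ :=
  q ^ k * ((1 + q ^ (4 * k + 1)) / (1 + q)) * (qp (q ^ 2) (q ^ 4) k / qp (q ^ 4) (q ^ 4) k) ^ 3

/-- The factor `R_n(q)`; here `∑_{i<n} (q^2)^i = [n]_{q^2}`. -/
def R (n : ℕ) : RatFunc ℚ :=
  q ^ ((1 - (n : ℤ)) / 2) * (∑ i ∈ range n, (q ^ 2) ^ i) *
    ∏ j ∈ range ((n - 1) / 2), ((1 - q ^ (4 * j + 3)) / (1 - q ^ (4 * j + 5)))

/-- The rational numbers `c_k = (1/2)_k^3 / k!^3`. -/
def c (k : ℕ) : ℚ := (∏ j ∈ range k, (1 / 2 + (j : ℚ))) ^ 3 / (k.factorial : ℚ) ^ 3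

/-- `A ≡ B (mod Φ^2)`: `A - B = U / V` with polynomials `U`, `V`, where `V` is coprime to `Φ` and
`Φ^2` divides `U`. -/
def CongSq (Φ : ℚ[X]) (A B : RatFunc ℚ) : Prop :=
  ∃ U V : ℚ[X], IsCoprime V Φ ∧ Φ ^ 2 ∣ U ∧
    A - B = algebraMap ℚ[X] (RatFunc ℚ) U / algebraMap ℚ[X] (RatFunc ℚ) V

open Pool.Agent.X14 QL QBlock

lemma q_def : q = QL.q := rfl

lemma a_eq (k : ℕ) : a k = QLiu.term k := by
  unfold a QLiu.term rr
  rw [prod_div_distrib]
  congr 3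
  · unfold qp
    apply prod_congr rfl
    intro j _
    rw [show (((2 : ℕ) : ℤ) * (2 * (j : ℤ) + 1)) = ((4 * j + 2 : ℕ) : ℤ) by push_cast; ring, e_nat,
      q_def, ← pow_mul, pow_add]
    ring
  · unfold qp
    apply prod_congr rfl
    intro j _
    rw [show (((2 : ℕ) : ℤ) * (2 * (j : ℤ) + 2)) = ((4 * j + 4 : ℕ) : ℤ) by push_cast; ring, e_nat,
      q_def, ← pow_mul, pow_add]
    ring

lemma R_eq {n h : ℕ} (hn : n = 2 * h + 1) : R n = QLiu.V n h 0 := by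
  have h1 : (1 - q ^ 2 : RatFunc ℚ) ≠ 0 := one_sub_ne (j := 2) (by norm_num)
  have h0 : (1 - q : RatFunc ℚ) ≠ 0 := by
    have := one_sub_ne (j := 1) one_pos; rwa [pow_one] at this
  have h2 : (1 + q : RatFunc ℚ) ≠ 0 := QLiu.one_add_ne
  have h3 : (∑ i ∈ range n, (q ^ 2) ^ i) * (1 - q ^ 2) = (1 - q ^ n) * (1 + q ^ n) := by
    have := geom_sum_mul (q ^ 2) n
    rw [← pow_mul, mul_comm 2 n, pow_mul] at this
    linear_combination -this
  have h4 : (∑ i ∈ range n, (q ^ 2) ^ i) = (1 - q ^ n) * (1 + q ^ n) / (1 - q ^ 2) := by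
    rw [eq_div_iff h1]; exact h3
  unfold R QLiu.V
  have e1 : (1 - (n : ℤ)) / 2 = -(h : ℤ) := by omega
  have e2 : (n - 1) / 2 = h := by omega
  have e3 : n * (2 * 0 + 1) = 2 * h + 1 := by omega
  rw [e1, e2, e3, QLiu.FF_eq, h4]
  have e4 : (QL.q ^ n) ^ (2 * ((0 : ℕ) : ℤ) + 1) = q ^ n := by simp [q_def]
  rw [e4, ← q_def]
  have e5 : ∏ j ∈ range h, ((1 - q ^ (4 * j + 3)) / (1 - q ^ (4 * j + 5))) =
      (∏ j ∈ range h, e (4 * (j : ℤ) + 3)) / ∏ j ∈ range h, e (4 * (j : ℤ) + 5) := by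
    rw [← prod_div_distrib]
    apply prod_congr rfl
    intro j _
    rw [show (4 * (j : ℤ) + 3) = ((4 * j + 3 : ℕ) : ℤ) by push_cast; ring,
      show (4 * (j : ℤ) + 5) = ((4 * j + 5 : ℕ) : ℤ) by push_cast; ring, e_nat, e_nat, q_def]
  rw [e5]
  have a2 : (1 - q ^ 2 : RatFunc ℚ) = (1 - q) * (1 + q) := by ring
  rw [a2]
  simp only [Nat.cast_zero, neg_zero, zpow_zero, mul_one]
  field_simp

lemma c_eq (k : ℕ) : QLiu.b k = c k := by
  unfold QLiu.b c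
  rw [← div_pow]
  congr 1
  induction k with
  | zero => simp
  | succ k ih =>
    rw [prod_range_succ, prod_range_succ, ih, Nat.factorial_succ]
    have h1 : (k.factorial : ℚ) ≠ 0 := by exact_mod_cast Nat.factorial_ne_zero k
    have h2 : ((k : ℚ) + 1) ≠ 0 := by positivity
    have h3 : (2 * (k : ℚ) + 2) ≠ 0 := by positivity
    push_cast
    field_simp
    ring

lemma congSq_of_QO {Φ : ℚ[X]} (hΦ : ¬ IsUnit Φ) {A B : RatFunc ℚ} (h : QO Φ 2 (A - B)) : CongSq Φ A B := by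
  obtain ⟨y, ⟨a, b, h1, h2⟩, h3⟩ := h
  refine ⟨Φ ^ 2 * a, b, h1, dvd_mul_right _ _, ?_⟩
  have hb : b ≠ 0 := by
    rintro rfl
    exact hΦ (isCoprime_zero_left.1 h1)
  rw [eq_div_iff (al_ne hb), h3, map_mul, map_pow, mul_assoc, h2]

/-- **Full positive answer to Q1.** -/
theorem result (m n : ℕ) (hn1 : 1 < n) (hn4 : n % 4 = 1) :
    CongSq (cyclotomic n ℚ) (∑ k ∈ range (m * n), a k) (R n * ((∑ k ∈ range m, c k : ℚ) : RatFunc ℚ)) := by
  obtain ⟨h, hn⟩ : ∃ h, n = 2 * h + 1 := ⟨n / 2, by omega⟩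
  apply congSq_of_QO (cyclotomic.irreducible_rat (by omega)).not_isUnit
  rw [R_eq hn, mul_comm m n]
  simp only [a_eq]
  rw [sum_range_blocks]
  have h1 := Eqm.sum (P := cyclotomic n ℚ) (k := 2) (s := range m) (f := fun J => ∑ l ∈ range n, QLiu.term (n * J + l))
    (g := fun J => QLiu.V n h 0 * (QLiu.b J : ℚ)) (fun J _ => QLiu.blocks hn (by omega) J)
  rw [← mul_sum] at h1
  simp only [c_eq] at h1
  push_cast
  exact h1

end

end Pool.Agent.Results.MP_c9c571_nt.AllOneModFour
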